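import Pool.Agent.H84.Flc

namespace Pool.Agent.Results.MP_a34ed5_an.MHilb

open Filter Pool.Agent.H84.FlcDefs

theorem result (p : Ultrafilter ℕ) (hp : (p : Filter ℕ) ≤ cofinite) :
    @MultiHilbert (XP p →₀ ℝ) _ _ (freeTop (XP p)) ↔ PPoint p ∧ Rapid p := by
  rw [← Pool.Agent.H84.Flc.sp_iff hp]
  exact (Pool.Agent.H84.Flc.main p hp).2

end Pool.Agent.Results.MP_a34ed5_an.MHilb
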